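import Pool.Agent.Helper60.PlzA.Goals

/-! Packet PLA COST: the cost of a good walk. -/

set_option autoImplicit false

namespace Pool.Agent.Helper67.PlzA

open Finset Pool.Agent.Helper93.Plz Pool.Agent.Helper60.PlzA

open scoped Classical

variable {V : Type} [Fintype V]

theorem mem_nbs (G : SimpleGraph V) (v w : V) : w ∈ nbs G v ↔ G.Adj v w := by
  simp [nbs]

theorem mem_cmn (G : SimpleGraph V) (a b w : V) : w ∈ cmn G a b ↔ G.Adj a w ∧ G.Adj b w := by
  simp [cmn]

theorem cmn_comm (G : SimpleGraph V) (a b : V) : cmn G a b = cmn G b a := by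
  ext w; simp only [mem_cmn]; tauto

theorem cod_comm (G : SimpleGraph V) (a b : V) : cod G a b = cod G b a := by
  rw [cod, cod, cmn_comm]

theorem cod_self (G : SimpleGraph V) (a : V) : cod G a a = dgr G a := by
  rw [cod, dgr]
  congr 1
  ext w; simp only [mem_cmn, mem_nbs]; tauto

theorem cod_le (G : SimpleGraph V) (a b : V) : cod G a b ≤ dgr G a := by
  rw [cod, dgr]
  apply Finset.card_le_card
  intro w hw
  rw [mem_cmn] at hw
  rw [mem_nbs]
  exact hw.1

theorem eb_sum (G : SimpleGraph V) (X Y : Finset V) :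
    eb G X Y = ∑ u ∈ X, (Y.filter fun w => G.Adj u w).card := by
  rw [eb, Finset.card_filter, Finset.sum_product]
  refine Finset.sum_congr rfl fun u _ => ?_
  rw [Finset.card_filter]

theorem eb_comm (G : SimpleGraph V) (X Y : Finset V) : eb G X Y = eb G Y X := by
  rw [eb_sum, eb, Finset.card_filter, Finset.sum_product_right]
  refine Finset.sum_congr rfl fun u _ => ?_
  rw [Finset.card_filter]
  refine Finset.sum_congr rfl fun w _ => ?_
  simp only [G.adj_comm]

theorem filter_nbs (G : SimpleGraph V) (b u : V) :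
    ((nbs G b).filter fun w => G.Adj u w).card = cod G b u := by
  rw [cod]
  congr 1
  ext w
  simp only [mem_filter, mem_nbs, mem_cmn]

theorem e2_nbs (G : SimpleGraph V) (v : V) : e2 G (nbs G v) = rho2 G v := by
  rw [e2, eb_sum, rho2]
  refine Finset.sum_congr rfl fun u _ => ?_
  rw [filter_nbs]

theorem eb_mono (G : SimpleGraph V) {X X' Y Y' : Finset V} (h : X ⊆ X') (h' : Y ⊆ Y') :
    eb G X Y ≤ eb G X' Y' := by
  rw [eb, eb]
  apply Finset.card_le_card
  intro p hp
  simp only [mem_filter, mem_product] at hp ⊢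
  exact ⟨⟨h hp.1.1, h' hp.1.2⟩, hp.2⟩

theorem eb_le_card (G : SimpleGraph V) (t : ℕ) (ht : ∀ v, dgr G v ≤ t) (X Y : Finset V) :
    eb G X Y ≤ X.card * t := by
  rw [eb_sum, ← smul_eq_mul, ← Finset.sum_const]
  refine Finset.sum_le_sum fun u _ => ?_
  refine le_trans ?_ (ht u)
  rw [dgr]
  apply Finset.card_le_card
  intro w hw
  rw [mem_filter] at hw
  rw [mem_nbs]
  exact hw.2

/-- (1) -/
theorem e2_union (G : SimpleGraph V) (t : ℕ) (ht : ∀ v, dgr G v ≤ t) (A B : Finset V) :
    e2 G (A ∪ B) ≤ e2 G B + 2 * (A.card * t) := by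
  have h1 : e2 G (A ∪ B) ≤ eb G B B + (eb G A univ + eb G univ A) := by
    rw [e2, eb, eb, eb, eb]
    refine (Finset.card_le_card ?_).trans ((Finset.card_union_le _ _).trans
      (Nat.add_le_add_left (Finset.card_union_le _ _) _))
    intro p hp
    simp only [mem_filter, mem_product, mem_union, mem_univ] at hp ⊢
    tauto
  have h2 : eb G univ A = eb G A univ := eb_comm G _ _
  have h3 := eb_le_card G t ht A univ
  rw [e2, ← e2]
  rw [h2] at h1
  have : e2 G B = eb G B B := rfl
  omega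

/-- (2), one pair -/
theorem eb_diff (G : SimpleGraph V) (t : ℕ) (ht : ∀ v, dgr G v ≤ t) (a b : V) :
    eb G ((nbs G a).filter fun u => ¬ G.Adj b u) (nbs G b) ≤ crs G a b + t := by
  rw [eb_sum]
  have h0 : ∀ u, ((nbs G b).filter fun w => G.Adj u w).card = cod G b u := filter_nbs G b
  simp only [h0]
  rw [crs]
  have h1 : ((nbs G a).filter fun u => ¬ G.Adj b u) ⊆
      ((nbs G a).filter fun u => ¬ G.Adj b u ∧ u ≠ b) ∪ {b} := by
    intro u hu
    simp only [mem_filter, mem_union, mem_singleton] at hu ⊢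
    by_cases h : u = b
    · exact Or.inr h
    · exact Or.inl ⟨hu.1, hu.2, h⟩
  refine (Finset.sum_le_sum_of_subset h1).trans ?_
  have h2 : Disjoint ((nbs G a).filter fun u => ¬ G.Adj b u ∧ u ≠ b) {b} := by
    rw [Finset.disjoint_singleton_right]
    simp
  rw [Finset.sum_union h2, Finset.sum_singleton, cod_self]
  have := ht b
  omega

/-- (3), the split of the neighbourhood -/
theorem e2_split (G : SimpleGraph V) (a b : V) (D : Finset V)
    (hD : D ⊆ (nbs G a).filter fun u => ¬ G.Adj b u) :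
    e2 G D + e2 G (cmn G a b) ≤ rho2 G a := by
  rw [← e2_nbs, e2, e2, e2, eb, eb, eb, ← Finset.card_union_of_disjoint]
  · apply Finset.card_le_card
    intro p hp
    simp only [mem_filter, mem_product, mem_union] at hp ⊢
    rcases hp with ⟨⟨h1, h2⟩, h3⟩ | ⟨⟨h1, h2⟩, h3⟩
    · exact ⟨⟨(mem_filter.mp (hD h1)).1, (mem_filter.mp (hD h2)).1⟩, h3⟩
    · rw [mem_cmn] at h1 h2
      exact ⟨⟨(mem_nbs _ _ _).mpr h1.1, (mem_nbs _ _ _).mpr h2.1⟩, h3⟩
  · rw [Finset.disjoint_left]
    intro p hp hp'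
    simp only [mem_filter, mem_product] at hp hp'
    have h1 := (mem_filter.mp (hD hp.1.1)).2
    have h2 := ((mem_cmn _ _ _ _).mp hp'.1.1).2
    exact h1 h2

/-- (3), the edges inside the common neighbourhood -/
theorem e2_cmn (G : SimpleGraph V) (a b : V) :
    cod G a b ^ 2 ≤ e2 G (cmn G a b) + cod G a b + nad G a b := by
  have h1 : (cmn G a b ×ˢ cmn G a b) ⊆
      (((cmn G a b ×ˢ cmn G a b).filter fun p => G.Adj p.1 p.2) ∪
        (cmn G a b).image (fun w => (w, w))) ∪
      ((cmn G a b ×ˢ cmn G a b).filter fun p => p.1 ≠ p.2 ∧ ¬ G.Adj p.1 p.2) := by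
    intro p hp
    rw [mem_union, mem_union, mem_filter, mem_filter, mem_image]
    by_cases h : p.1 = p.2
    · refine Or.inl (Or.inr ⟨p.1, (mem_product.mp hp).1, ?_⟩)
      exact Prod.ext rfl h
    · by_cases h' : G.Adj p.1 p.2
      · exact Or.inl (Or.inl ⟨hp, h'⟩)
      · exact Or.inr ⟨hp, h, h'⟩
  have h2 := Finset.card_le_card h1
  have h3 := Finset.card_union_le (((cmn G a b ×ˢ cmn G a b).filter fun p => G.Adj p.1 p.2) ∪
        (cmn G a b).image (fun w => (w, w)))
      ((cmn G a b ×ˢ cmn G a b).filter fun p => p.1 ≠ p.2 ∧ ¬ G.Adj p.1 p.2)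
  have h4 := Finset.card_union_le ((cmn G a b ×ˢ cmn G a b).filter fun p => G.Adj p.1 p.2)
        ((cmn G a b).image (fun w => (w, w)))
  have h5 : ((cmn G a b).image (fun w => (w, w))).card ≤ (cmn G a b).card := Finset.card_image_le
  have h6 : (cmn G a b ×ˢ cmn G a b).card = cod G a b ^ 2 := by
    rw [Finset.card_product, cod, sq]
  have h7 : cod G a b = (cmn G a b).card := rfl
  have h8 : e2 G (cmn G a b) = ((cmn G a b ×ˢ cmn G a b).filter fun p => G.Adj p.1 p.2).card := rfl
  have h9 : nad G a b = ((cmn G a b ×ˢ cmn G a b).filter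
    fun p => p.1 ≠ p.2 ∧ ¬ G.Adj p.1 p.2).card := rfl
  omega

/-- (3), comparison of codegrees -/
theorem cod_er3 (G : SimpleGraph V) (p q r : V) (hq : G.Adj p q) (hr : G.Adj p r) :
    cod G q r ≤ cod G r p + er3 G p q r + 1 := by
  rw [er3, if_pos ⟨hq, hr⟩]
  have h1 : cmn G q r ⊆ (cmn G r p ∪ (cmn G q r).filter fun u => u ≠ p ∧ ¬ G.Adj p u) ∪ {p} := by
    intro u hu
    rw [mem_union, mem_union, mem_filter, mem_singleton]
    by_cases h : u = p
    · exact Or.inr h
    · by_cases h' : G.Adj p u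
      · refine Or.inl (Or.inl ?_)
        rw [mem_cmn] at hu ⊢
        exact ⟨hu.2, h'⟩
      · exact Or.inl (Or.inr ⟨hu, h, h'⟩)
  have h2 := Finset.card_le_card h1
  have h3 := Finset.card_union_le (cmn G r p ∪ (cmn G q r).filter fun u => u ≠ p ∧ ¬ G.Adj p u) {p}
  have h4 := Finset.card_union_le (cmn G r p) ((cmn G q r).filter fun u => u ≠ p ∧ ¬ G.Adj p u)
  rw [Finset.card_singleton] at h3
  have h5 : cod G q r = (cmn G q r).card := rfl
  have h6 : cod G r p = (cmn G r p).card := rfl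
  omega

/-- (3), the arithmetic -/
theorem arith (a c e t : ℝ) (he : 0 ≤ e) (ht : 0 ≤ t) (ha0 : 0 ≤ a) (hc0 : 0 ≤ c) (ha : a ≤ t)
    (hc : c ≤ t) (h : a ≤ c + e + 1) : a ^ 2 - c ^ 2 ≤ 2 * t * e + 2 * t := by
  rcases le_total a c with h1 | h1
  · nlinarith
  · have h2 : a ^ 2 - c ^ 2 = (a - c) * (a + c) := by ring
    rw [h2]
    have h3 : (a - c) * (a + c) ≤ (e + 1) * (2 * t) := by
      apply mul_le_mul <;> linarith
    linarith

theorem cost : S_COST := by
  intro V _ G t k x hdeg hwk hgood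
  set K := Ks G x with hK
  set X := ev x with hX
  have hKr : ∀ i ∈ K, i ≤ k ∧ Kp G x i := by
    intro i hi
    rw [hK, Ks, mem_filter] at hi
    exact ⟨hi.2.1, hi.2⟩
  have hKmem : ∀ i, i ≤ k → Kp G x i → i ∈ K := by
    intro i hi h
    rw [hK, Ks, mem_filter, mem_range]
    exact ⟨by omega, h⟩
  have h0K : 0 ∈ K := hKmem 0 (Nat.zero_le _) ⟨Nat.zero_le _, fun h => by omega⟩
  set N := K.biUnion (fun i => nbs G (X i)) with hN
  set D : ℕ → Finset V := fun i => (nbs G (X i)).filter (fun u => ∀ p ∈ K, p < i → ¬ G.Adj (X p) u)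
    with hD
  have hcodt : ∀ a b, cod G a b ≤ t := fun a b => (cod_le G a b).trans (hdeg a)
  have hKcard : K.card ≤ k + 1 := by
    have := Finset.card_le_card (Finset.filter_subset (fun i => Kp G x i) (range (k + 1)))
    rw [Finset.card_range] at this
    exact this
  -- (1)
  have s1 : e2 G (cnb G (TT G x)) ≤ e2 G N + 2 * ((k + 1) * t) := by
    have hsub : cnb G (TT G x) ⊆ TT G x ∪ N := by
      intro w hw
      rw [cnb, mem_filter] at hw
      rw [mem_union]
      rcases hw.2 with h | ⟨y, hy, hyw⟩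
      · exact Or.inl h
      · right
        rw [TT, mem_image] at hy
        obtain ⟨i, hi, rfl⟩ := hy
        rw [hN, mem_biUnion]
        exact ⟨i, hi, (mem_nbs _ _ _).mpr hyw⟩
    have h1 : e2 G (cnb G (TT G x)) ≤ e2 G (TT G x ∪ N) := eb_mono G hsub hsub
    have h2 := e2_union G t hdeg (TT G x) N
    have h3 : (TT G x).card ≤ k + 1 := (Finset.card_image_le).trans hKcard
    have h4 : (TT G x).card * t ≤ (k + 1) * t := Nat.mul_le_mul_right _ h3
    omega
  -- (2)
  have s2 : e2 G N ≤ ∑ i ∈ K, e2 G (D i) +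
      2 * ∑ i ∈ K, ∑ p ∈ K.filter (· < i), (crs G (X i) (X p) + t) := by
    have hmin : ∀ u ∈ N, ∃ i ∈ K, u ∈ D i := by
      intro u hu
      rw [hN, mem_biUnion] at hu
      have hne : (K.filter fun i => u ∈ nbs G (X i)).Nonempty := by
        obtain ⟨i, hi, hiu⟩ := hu
        exact ⟨i, mem_filter.mpr ⟨hi, hiu⟩⟩
      have hm := Finset.min'_mem _ hne
      rw [mem_filter] at hm
      refine ⟨_, hm.1, ?_⟩
      rw [hD]
      simp only [mem_filter]
      refine ⟨hm.2, fun p hp hlt hadj => ?_⟩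
      have := Finset.min'_le (K.filter fun i => u ∈ nbs G (X i)) p
        (mem_filter.mpr ⟨hp, (mem_nbs _ _ _).mpr hadj⟩)
      omega
    have hsub : ((N ×ˢ N).filter fun p => G.Adj p.1 p.2) ⊆
        (K.biUnion fun i => ((D i ×ˢ D i).filter fun p => G.Adj p.1 p.2)) ∪
        ((K.biUnion fun i => (K.filter (· < i)).biUnion fun p =>
          ((((nbs G (X i)).filter fun u => ¬ G.Adj (X p) u) ×ˢ nbs G (X p)).filter
            fun q => G.Adj q.1 q.2)) ∪
        (K.biUnion fun i => (K.filter (· < i)).biUnion fun p =>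
          ((nbs G (X p) ×ˢ ((nbs G (X i)).filter fun u => ¬ G.Adj (X p) u)).filter
            fun q => G.Adj q.1 q.2))) := by
      intro q hq
      rw [mem_filter, mem_product] at hq
      obtain ⟨⟨h1, h2⟩, h3⟩ := hq
      obtain ⟨i, hi, hiD⟩ := hmin _ h1
      obtain ⟨j, hj, hjD⟩ := hmin _ h2
      have hiD' := hiD
      have hjD' := hjD
      rw [hD] at hiD' hjD'
      simp only [mem_filter] at hiD' hjD'
      rw [mem_union, mem_union]
      rcases lt_trichotomy i j with hij | hij | hij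
      · right; right
        rw [mem_biUnion]
        refine ⟨j, hj, ?_⟩
        rw [mem_biUnion]
        refine ⟨i, mem_filter.mpr ⟨hi, hij⟩, ?_⟩
        rw [mem_filter, mem_product, mem_filter]
        exact ⟨⟨hiD'.1, hjD'.1, hjD'.2 i hi hij⟩, h3⟩
      · left
        subst hij
        rw [mem_biUnion]
        exact ⟨i, hi, mem_filter.mpr ⟨mem_product.mpr ⟨hiD, hjD⟩, h3⟩⟩
      · right; left
        rw [mem_biUnion]
        refine ⟨i, hi, ?_⟩
        rw [mem_biUnion]
        refine ⟨j, mem_filter.mpr ⟨hj, hij⟩, ?_⟩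
        rw [mem_filter, mem_product, mem_filter]
        exact ⟨⟨⟨hiD'.1, hiD'.2 j hj hij⟩, hjD'.1⟩, h3⟩
    have h1 : e2 G N ≤ _ := Finset.card_le_card hsub
    refine h1.trans ((Finset.card_union_le _ _).trans ?_)
    refine Nat.add_le_add ?_ ?_
    · exact Finset.card_biUnion_le
    · refine (Finset.card_union_le _ _).trans ?_
      rw [two_mul]
      refine Nat.add_le_add ?_ ?_
      · refine Finset.card_biUnion_le.trans (Finset.sum_le_sum fun i _ => ?_)
        refine Finset.card_biUnion_le.trans (Finset.sum_le_sum fun p _ => ?_)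
        exact eb_diff G t hdeg (X i) (X p)
      · refine Finset.card_biUnion_le.trans (Finset.sum_le_sum fun i _ => ?_)
        refine Finset.card_biUnion_le.trans (Finset.sum_le_sum fun p _ => ?_)
        refine le_trans (le_of_eq ?_) (eb_diff G t hdeg (X i) (X p))
        exact eb_comm G _ _
  -- (3)
  have hnn : ∀ i p, (0 : ℝ) ≤ (nad G (X i) (X p) : ℝ) +
      (if p + 2 ≤ i then 2 * t * (er3 G (X p) (X (i - 1)) (X i) : ℝ) else 0) := by
    intro i p
    have : (0 : ℝ) ≤ (if p + 2 ≤ i then 2 * t * (er3 G (X p) (X (i - 1)) (X i) : ℝ) else 0) := by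
      split_ifs <;> positivity
    positivity
  have s3 : ∀ i ∈ K, (e2 G (D i) : ℝ) ≤ ((rho2 G (X i) : ℝ) -
        if 1 ≤ i then (cod G (X (i - 1)) (X i) : ℝ) ^ 2 else 0) + 3 * t +
      ∑ p ∈ range i, ((nad G (X i) (X p) : ℝ) +
        (if p + 2 ≤ i then 2 * t * (er3 G (X p) (X (i - 1)) (X i) : ℝ) else 0)) := by
    intro i hi
    have ht0 : (0 : ℝ) ≤ t := Nat.cast_nonneg t
    by_cases h1 : 1 ≤ i
    · rw [if_pos h1]
      have hne : (K.filter (· < i)).Nonempty := ⟨0, mem_filter.mpr ⟨h0K, h1⟩⟩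
      set p := (K.filter (· < i)).max' hne with hp
      have hpm := Finset.max'_mem _ hne
      rw [← hp, mem_filter] at hpm
      obtain ⟨hpK, hpi⟩ := hpm
      have hik := (hKr i hi).1
      have htr : ∀ l, p < l → l < i → Tr G x l := by
        intro l hl1 hl2
        by_contra hcon
        have hlk : Kp G x l := by
          refine ⟨by omega, fun h => hcon h.2.2.2.2⟩
        have hle := Finset.le_max' (K.filter (· < i)) l
          (mem_filter.mpr ⟨hKmem l (by omega) hlk, hl2⟩)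
        rw [← hp] at hle
        omega
      have hadj : G.Adj (X p) (X i) := (hgood.run p i hpi hik).mpr htr
      have hDsub : D i ⊆ (nbs G (X i)).filter fun u => ¬ G.Adj (X p) u := by
        intro u hu
        rw [hD] at hu
        simp only [mem_filter] at hu ⊢
        exact ⟨hu.1, hu.2 p hpK hpi⟩
      have e1 := e2_split G (X i) (X p) (D i) hDsub
      have e2' := e2_cmn G (X i) (X p)
      have hc := hcodt (X i) (X p)
      have hsingle : (nad G (X i) (X p) : ℝ) +
          (if p + 2 ≤ i then 2 * t * (er3 G (X p) (X (i - 1)) (X i) : ℝ) else 0) ≤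
          ∑ p ∈ range i, ((nad G (X i) (X p) : ℝ) +
          (if p + 2 ≤ i then 2 * t * (er3 G (X p) (X (i - 1)) (X i) : ℝ) else 0)) :=
        Finset.single_le_sum (f := fun p => (nad G (X i) (X p) : ℝ) +
          (if p + 2 ≤ i then 2 * t * (er3 G (X p) (X (i - 1)) (X i) : ℝ) else 0))
          (fun q _ => hnn i q) (mem_range.mpr hpi)
      have r1 : (e2 G (D i) : ℝ) + e2 G (cmn G (X i) (X p)) ≤ rho2 G (X i) := by exact_mod_cast e1
      have r2 : (cod G (X i) (X p) : ℝ) ^ 2 ≤
          e2 G (cmn G (X i) (X p)) + cod G (X i) (X p) + nad G (X i) (X p) := by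
        exact_mod_cast e2'
      have r3 : (cod G (X i) (X p) : ℝ) ≤ t := by exact_mod_cast hc
      by_cases hp2 : p + 2 ≤ i
      · rw [if_pos hp2] at hsingle
        have hadj' : G.Adj (X p) (X (i - 1)) :=
          (hgood.run p (i - 1) (by omega) (by omega)).mpr
            (fun l hl1 hl2 => htr l hl1 (by omega))
        have e4 := cod_er3 G (X p) (X (i - 1)) (X i) hadj' hadj
        have r4 : (cod G (X (i - 1)) (X i) : ℝ) ≤
            cod G (X i) (X p) + er3 G (X p) (X (i - 1)) (X i) + 1 := by exact_mod_cast e4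
        have r5 : (cod G (X (i - 1)) (X i) : ℝ) ≤ t := by exact_mod_cast hcodt _ _
        have r6 := arith (cod G (X (i - 1)) (X i)) (cod G (X i) (X p))
          (er3 G (X p) (X (i - 1)) (X i)) t (Nat.cast_nonneg _) ht0 (Nat.cast_nonneg _)
          (Nat.cast_nonneg _) r5 r3 r4
        linarith
      · rw [if_neg hp2] at hsingle
        have hpe : p = i - 1 := by omega
        have hce : cod G (X (i - 1)) (X i) = cod G (X i) (X p) := by rw [hpe, cod_comm]
        rw [hce]
        linarith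
    · rw [if_neg h1]
      have hsub : D i ⊆ nbs G (X i) := Finset.filter_subset _ _
      have h2 : e2 G (D i) ≤ e2 G (nbs G (X i)) := eb_mono G hsub hsub
      rw [e2_nbs] at h2
      have h3 : (e2 G (D i) : ℝ) ≤ rho2 G (X i) := by exact_mod_cast h2
      have h4 : (0 : ℝ) ≤ ∑ p ∈ range i, ((nad G (X i) (X p) : ℝ) +
        (if p + 2 ≤ i then 2 * t * (er3 G (X p) (X (i - 1)) (X i) : ℝ) else 0)) :=
        Finset.sum_nonneg fun p _ => hnn i p
      linarith
  -- (4)
  have ht0 : (0 : ℝ) ≤ t := Nat.cast_nonneg t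
  have hk0 : (0 : ℝ) ≤ k := Nat.cast_nonneg k
  have s4 : (e2 G (cnb G (TT G x)) : ℝ) ≤ (∑ i ∈ K, (e2 G (D i) : ℝ)) +
      2 * (∑ i ∈ K, ∑ p ∈ K.filter (· < i), ((crs G (X i) (X p) : ℝ) + t)) +
      2 * (((k : ℝ) + 1) * t) := by
    have h1 := s1.trans (Nat.add_le_add_right s2 _)
    exact_mod_cast h1
  have s5 := Finset.sum_le_sum s3
  rw [Finset.sum_add_distrib, Finset.sum_add_distrib, Finset.sum_const, nsmul_eq_mul] at s5
  have hKc : (K.card : ℝ) ≤ (k : ℝ) + 1 := by exact_mod_cast hKcard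
  have s6 : (K.card : ℝ) * (3 * t) ≤ ((k : ℝ) + 1) * (3 * t) :=
    mul_le_mul_of_nonneg_right hKc (by positivity)
  have hKsub : K ⊆ range (k + 1) := Finset.filter_subset _ _
  -- the double sums
  have s7 : ∑ i ∈ K, ∑ p ∈ range i, ((nad G (X i) (X p) : ℝ) +
        (if p + 2 ≤ i then 2 * t * (er3 G (X p) (X (i - 1)) (X i) : ℝ) else 0)) ≤
      ∑ i ∈ range (k + 1), ∑ p ∈ range i, ((nad G (X i) (X p) : ℝ) +
        (if p + 2 ≤ i then 2 * t * (er3 G (X p) (X (i - 1)) (X i) : ℝ) else 0)) :=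
    Finset.sum_le_sum_of_subset_of_nonneg hKsub
      (fun i _ _ => Finset.sum_nonneg fun p _ => hnn i p)
  have s8 : ∑ i ∈ K, ∑ p ∈ K.filter (· < i), ((crs G (X i) (X p) : ℝ) + t) ≤
      ∑ i ∈ range (k + 1), ∑ p ∈ range i, ((crs G (X i) (X p) : ℝ) + t) := by
    refine (Finset.sum_le_sum (g := fun i => ∑ p ∈ range i, ((crs G (X i) (X p) : ℝ) + t))
      fun i _ => ?_).trans
      (Finset.sum_le_sum_of_subset_of_nonneg hKsub
        (fun i _ _ => Finset.sum_nonneg fun p _ => by positivity))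
    refine Finset.sum_le_sum_of_subset_of_nonneg ?_ (fun p _ _ => by positivity)
    intro p hp
    rw [mem_filter] at hp
    exact mem_range.mpr hp.2
  have s9 : ∑ i ∈ range (k + 1), ∑ p ∈ range i, ((crs G (X i) (X p) : ℝ) + t) =
      (∑ i ∈ range (k + 1), ∑ p ∈ range i, (crs G (X i) (X p) : ℝ)) +
      (∑ i ∈ range (k + 1), (i : ℝ)) * t := by
    rw [Finset.sum_mul, ← Finset.sum_add_distrib]
    refine Finset.sum_congr rfl fun i _ => ?_
    rw [Finset.sum_add_distrib, Finset.sum_const, Finset.card_range, nsmul_eq_mul]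
  have s10 : (∑ i ∈ range (k + 1), (i : ℝ)) ≤ ((k : ℝ) + 1) * k := by
    have : ∀ i ∈ range (k + 1), (i : ℝ) ≤ k := by
      intro i hi
      rw [mem_range] at hi
      exact_mod_cast Nat.lt_succ_iff.mp hi
    refine (Finset.sum_le_sum this).trans (le_of_eq ?_)
    rw [Finset.sum_const, Finset.card_range, nsmul_eq_mul]
    push_cast
    ring
  have s11 : Err G t x = 7 * ((k : ℝ) + 1) ^ 2 * t +
      (2 * (∑ i ∈ range (k + 1), ∑ p ∈ range i, (crs G (X i) (X p) : ℝ)) +
      ∑ i ∈ range (k + 1), ∑ p ∈ range i, ((nad G (X i) (X p) : ℝ) +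
        (if p + 2 ≤ i then 2 * t * (er3 G (X p) (X (i - 1)) (X i) : ℝ) else 0))) := by
    rw [Err]
    congr 1
    rw [Finset.mul_sum, ← Finset.sum_add_distrib]
    refine Finset.sum_congr rfl fun i _ => ?_
    rw [Finset.mul_sum, ← Finset.sum_add_distrib]
    refine Finset.sum_congr rfl fun p _ => ?_
    rw [← hX]
    ring
  rw [s11]
  have s12 : (∑ i ∈ range (k + 1), (i : ℝ)) * t ≤ (((k : ℝ) + 1) * k) * t :=
    mul_le_mul_of_nonneg_right s10 ht0
  have s13 : 2 * ((((k : ℝ) + 1) * k) * t) + ((k : ℝ) + 1) * (3 * t) + 2 * (((k : ℝ) + 1) * t) ≤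
      7 * ((k : ℝ) + 1) ^ 2 * t := by
    have h1 : (0 : ℝ) ≤ k * t := by positivity
    have h2 : (0 : ℝ) ≤ k * k * t := by positivity
    nlinarith
  linarith

end Pool.Agent.Helper67.PlzA
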